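import Pool.Agent.V5helper57.Tw.Loc

/-!
# The array of the twists of a curve
-/

set_option autoImplicit false

namespace Pool.Agent.V5helper57.Tw

open Finset Filter Topology MeasureTheory ProbabilityTheory Pool.Agent.Y722.HS Pool.Agent.X280.BP
open Pool.Agent.V5helper57.Gen Pool.Agent.V5helper57.Win
open Pool.Agent.R459.Bsd (pc_eq ch_zero ch_sum ch_sq ch_abs)
open Pool.Agent.H491R4.TW (HH HH_per)
open Pool.Agent.W263.BSD (GoodPrime pointCount)
open scoped NNReal ENNReal

/-- The trace, and `0` at the other primes. -/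
noncomputable abbrev aT (a b : ℤ) (p : ℕ) : ℝ := Pool.Agent.R459.Bsd.TT a p b

theorem aT_bad {a b : ℤ} {p : ℕ} (h : ¬ GoodPrime a b p) : aT a b p = 0 := by
  unfold aT Pool.Agent.R459.Bsd.TT
  rw [if_neg h]

/-- The clock on `[u, v)`. -/
noncomputable def ck (a b : ℤ) (u v : ℕ) : ℝ := ∑ p ∈ (Ico u v).filter Nat.Prime, (aT a b p / p) ^ 2

/-- A bound for the convergent sums. -/
noncomputable def S3 : ℝ := ∑' n : ℕ, 1 / ((n : ℝ) * √n)

theorem S3_nonneg : 0 ≤ S3 := tsum_nonneg fun n => by positivity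

theorem S3_le (s : Finset ℕ) : ∑ p ∈ s, 1 / ((p : ℝ) * √p) ≤ S3 := summable_three.sum_le_tsum _ fun n _ => by positivity

theorem ck_nonneg (a b : ℤ) (u v : ℕ) : 0 ≤ ck a b u v := Finset.sum_nonneg fun p _ => by positivity

theorem ck_add {a b : ℤ} {u v w : ℕ} (h : u ≤ v) (h' : v ≤ w) : ck a b u w = ck a b u v + ck a b v w := by
  unfold ck
  rw [← Finset.Ico_union_Ico_eq_Ico h h', Finset.filter_union, Finset.sum_union]
  apply Finset.disjoint_filter_filter
  exact Finset.Ico_disjoint_Ico_consecutive u v w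

theorem ck_mono {a b : ℤ} {u u' v v' : ℕ} (hu : u' ≤ u) (hv : v ≤ v') : ck a b u v ≤ ck a b u' v' := by
  unfold ck
  refine Finset.sum_le_sum_of_subset_of_nonneg ?_ fun p _ _ => by positivity
  exact Finset.filter_subset_filter _ (Finset.Ico_subset_Ico hu hv)

theorem aT_sq {p : ℕ} (hp : p.Prime) (a b : ℤ) : (aT a b p / p) ^ 2 ≤ 4 / p := by
  have hp0 : (0 : ℝ) < p := by exact_mod_cast hp.pos
  have h := TT_le hp a b
  rw [div_pow, div_le_div_iff₀ (by positivity) hp0]
  have h2 : aT a b p ^ 2 ≤ 4 * p := by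
    rw [← sq_abs]
    calc |aT a b p| ^ 2 ≤ (2 * √p) ^ 2 := pow_le_pow_left₀ (abs_nonneg _) h 2
      _ = 4 * p := by rw [mul_pow, Real.sq_sqrt hp0.le]; norm_num
  nlinarith

theorem ck_LL (a b : ℤ) (u v : ℕ) : ck a b u v ≤ 4 * LL u v := by
  unfold ck LL
  rw [Finset.mul_sum]
  refine Finset.sum_le_sum fun p hp => ?_
  have := aT_sq (Finset.mem_filter.1 hp).2 a b
  rw [mul_one_div]
  exact this

/-- The time change. -/
noncomputable def tm (a b : ℤ) (x y : ℕ) (t : ℝ) : ℕ := sInf {n : ℕ | x ≤ n ∧ t * ck a b (x + 1) (y + 1) ≤ ck a b (x + 1) (n + 1)}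

section
variable {a b : ℤ} {x y : ℕ} {t : ℝ}

theorem tm_mem (hxy : x ≤ y) (h1 : t ≤ 1) : y ∈ {n : ℕ | x ≤ n ∧ t * ck a b (x + 1) (y + 1) ≤ ck a b (x + 1) (n + 1)} := by
  refine ⟨hxy, ?_⟩
  have := ck_nonneg a b (x + 1) (y + 1)
  nlinarith

theorem tm_spec (hxy : x ≤ y) (h1 : t ≤ 1) :
    x ≤ tm a b x y t ∧ t * ck a b (x + 1) (y + 1) ≤ ck a b (x + 1) (tm a b x y t + 1) :=
  Nat.sInf_mem ⟨y, tm_mem hxy h1⟩

theorem tm_le (hxy : x ≤ y) (h1 : t ≤ 1) : tm a b x y t ≤ y := Nat.sInf_le (tm_mem hxy h1)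

theorem tm_mono {s t : ℝ} (hxy : x ≤ y) (hst : s ≤ t) (h1 : t ≤ 1) : tm a b x y s ≤ tm a b x y t := by
  apply Nat.sInf_le
  obtain ⟨h2, h3⟩ := tm_spec (a := a) (b := b) hxy h1
  refine ⟨h2, le_trans ?_ h3⟩
  have := ck_nonneg a b (x + 1) (y + 1)
  nlinarith

theorem tm_up (hxy : x ≤ y) (h0 : 0 ≤ t) (h1 : t ≤ 1) :
    ck a b (x + 1) (tm a b x y t + 1) ≤ t * ck a b (x + 1) (y + 1) + 4 := by
  have hτ := ck_nonneg a b (x + 1) (y + 1)
  obtain ⟨h2, h3⟩ := tm_spec (a := a) (b := b) hxy h1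
  rcases h2.eq_or_lt with h | h
  · rw [← h]
    have e : ck a b (x + 1) (x + 1) = 0 := by
      unfold ck
      rw [Finset.Ico_self, Finset.filter_empty, Finset.sum_empty]
    rw [e]
    positivity
  · obtain ⟨m, hm⟩ : ∃ m, m = tm a b x y t := ⟨_, rfl⟩
    rw [← hm] at h ⊢
    have h4 : m - 1 ∉ {n : ℕ | x ≤ n ∧ t * ck a b (x + 1) (y + 1) ≤ ck a b (x + 1) (n + 1)} := by
      apply Nat.notMem_of_lt_sInf
      show m - 1 < tm a b x y t
      rw [← hm]
      omega
    have h5 : ck a b (x + 1) m < t * ck a b (x + 1) (y + 1) := by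
      by_contra hcon
      push Not at hcon
      apply h4
      refine ⟨by omega, ?_⟩
      have e : m - 1 + 1 = m := by omega
      rw [e]
      exact hcon
    have h6 := ck_add (a := a) (b := b) (show x + 1 ≤ m by omega) (show m ≤ m + 1 by omega)
    have h7 : ck a b m (m + 1) ≤ 4 := by
      unfold ck
      by_cases hp : m.Prime
      · have e : (Ico m (m + 1)).filter Nat.Prime = {m} := by
          ext p
          rw [Finset.mem_filter, Finset.mem_Ico, Finset.mem_singleton]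
          constructor
          · rintro ⟨h8, _⟩
            omega
          · rintro rfl
            exact ⟨by omega, hp⟩
        rw [e, Finset.sum_singleton]
        refine (aT_sq hp a b).trans ?_
        have : (1 : ℝ) ≤ m := by exact_mod_cast hp.one_le
        rw [div_le_iff₀ (by linarith)]
        linarith
      · have e : (Ico m (m + 1)).filter Nat.Prime = ∅ := by
          ext p
          rw [Finset.mem_filter, Finset.mem_Ico]
          simp only [Finset.notMem_empty, iff_false]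
          rintro ⟨h8, h9⟩
          have : p = m := by omega
          subst this
          exact hp h9
        rw [e, Finset.sum_empty]
        norm_num
    linarith

end

/-- The mean of the local factor. -/
noncomputable def mh (a b : ℤ) (p : ℕ) : ℝ := by
  classical
  exact if GoodPrime a b p then La p (aT a b p) - La p (aT a b p) / p else 0

theorem mh_eq (a b : ℤ) {p : ℕ} (hp : p.Prime) [NeZero p] : EM p (fun c : Fin 1 → ZMod p => hz a b p (c 0)) = mh a b p := by
  classical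
  haveI : Fact p.Prime := ⟨hp⟩
  unfold mh
  split_ifs with h
  · exact hz_mean (good_ne_two h) h
  · simp only [bad_zero h]
    exact EM_const' p 0

/-- The centre on `[u, v)`. -/
noncomputable def cen (a b : ℤ) (u v : ℕ) : ℝ := by
  classical
  exact ∑ p ∈ (Ico u v).filter Nat.Prime, (if GoodPrime a b p then 1 / (p : ℝ) - aT a b p ^ 2 / (2 * (p : ℝ) ^ 2) else 0)

/-- The sum of the local factors over the primes in `[u, v)`. -/
noncomputable def sH (a b d : ℤ) (u v : ℕ) : ℝ := ∑ p ∈ (Ico u v).filter Nat.Prime, HH a b p d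

theorem mh_cen (a b : ℤ) (u v : ℕ) : |∑ p ∈ (Ico u v).filter Nat.Prime, mh a b p - cen a b u v| ≤ 20001 * S3 := by
  classical
  unfold cen
  rw [← Finset.sum_sub_distrib]
  refine (Finset.abs_sum_le_sum_abs _ _).trans ?_
  refine le_trans (Finset.sum_le_sum (g := fun p : ℕ => 20001 * (1 / ((p : ℝ) * √p))) fun p hp => ?_) ?_
  · have hpp := (Finset.mem_filter.1 hp).2
    unfold mh
    split_ifs with h
    · have := (loc_est hpp (good_ne_two h) (TT_le hpp a b)).1
      rw [mul_one_div]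
      exact this
    · rw [sub_zero, abs_zero]
      positivity
  · rw [← Finset.mul_sum]
    exact mul_le_mul_of_nonneg_left (S3_le _) (by norm_num)

/-- The variance of the local factor. -/
theorem var_loc (a b : ℤ) {p : ℕ} (hp : p.Prime) [NeZero p] :
    |EM p (fun c : Fin 1 → ZMod p => (mh a b p - hz a b p (c 0)) ^ 2) - (aT a b p / p) ^ 2| ≤ 1000000000 * (1 / ((p : ℝ) * √p)) := by
  classical
  haveI : Fact p.Prime := ⟨hp⟩
  by_cases h : GoodPrime a b p
  · have h2 := good_ne_two h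
    have e1 : EM p (fun c : Fin 1 → ZMod p => (mh a b p - hz a b p (c 0)) ^ 2) =
        EM p (fun c : Fin 1 → ZMod p => hz a b p (c 0) ^ 2) - mh a b p ^ 2 := by
      have e2 : (fun c : Fin 1 → ZMod p => (mh a b p - hz a b p (c 0)) ^ 2) =
          fun c => (fun c : Fin 1 → ZMod p => hz a b p (c 0) ^ 2) c -
            (fun c : Fin 1 → ZMod p => (2 * mh a b p) * hz a b p (c 0) - mh a b p ^ 2) c := by
        funext c
        ring
      rw [e2, EM_sub', EM_sub', EM_mul', mh_eq a b hp, EM_const']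
      ring
    rw [e1, hz_sq h2 h]
    have e3 : mh a b p = La p (aT a b p) - La p (aT a b p) / p := by
      unfold mh
      rw [if_pos h]
    rw [e3, mul_one_div]
    exact (loc_est hp h2 (TT_le hp a b)).2.2
  · have e1 : mh a b p = 0 := by
      unfold mh
      rw [if_neg h]
    simp only [e1, bad_zero h, aT_bad h]
    rw [sub_zero, zero_div]
    have e2 : EM p (fun _ : Fin 1 → ZMod p => (0 : ℝ) ^ 2) = 0 ^ 2 := EM_const' p (0 ^ 2)
    rw [e2]
    simp
    positivity

/-- The bound of the local factor. -/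
theorem bd_loc (a b : ℤ) {p : ℕ} (hp : p.Prime) (z : ZMod p) :
    |mh a b p - hz a b p z| ≤ (|aT a b p| + 20001) / p := by
  classical
  haveI : Fact p.Prime := ⟨hp⟩
  have hp0 : (0 : ℝ) < p := by exact_mod_cast hp.pos
  have hp1 : (1 : ℝ) ≤ p := by exact_mod_cast hp.one_le
  by_cases h : GoodPrime a b p
  · have h2 := good_ne_two h
    have e3 : mh a b p = La p (aT a b p) - La p (aT a b p) / p := by
      unfold mh
      rw [if_pos h]
    have h3 := (loc_est hp h2 (TT_le hp a b)).2.1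
    refine le_trans ?_ h3
    rw [e3, hz_val h2 h]
    obtain ⟨A, hA⟩ : ∃ A, A = La p (aT a b p) := ⟨_, rfl⟩
    obtain ⟨B, hB⟩ : ∃ B, B = Lb p (aT a b p) := ⟨_, rfl⟩
    rw [← hA, ← hB]
    have h4 := Pool.Agent.R459.Bsd.ch_abs (p := p) z
    have h5 : |Pool.Agent.R459.Bsd.ch p z * B| ≤ |B| := by
      rw [abs_mul]
      exact mul_le_of_le_one_left (abs_nonneg _) h4
    have h6 : |(if z = 0 then A else 0) - A / p| ≤ |A| := by
      split_ifs
      · have e : A - A / p = A * (1 - 1 / p) := by ring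
        rw [e, abs_mul]
        apply mul_le_of_le_one_right (abs_nonneg _)
        have h7 : 0 ≤ 1 / (p : ℝ) ∧ 1 / (p : ℝ) ≤ 1 := ⟨by positivity, by rw [div_le_one hp0]; exact hp1⟩
        rw [abs_le]
        constructor <;> linarith
      · rw [zero_sub, abs_neg, abs_div, abs_of_pos hp0]
        exact div_le_self (abs_nonneg _) hp1
    have e : A - A / p - (A + Pool.Agent.R459.Bsd.ch p z * B - (if z = 0 then A else 0)) =
        ((if z = 0 then A else 0) - A / p) - Pool.Agent.R459.Bsd.ch p z * B := by ring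
    rw [e]
    refine (abs_sub _ _).trans ?_
    linarith
  · have e1 : mh a b p = 0 := by
      unfold mh
      rw [if_neg h]
    rw [e1, bad_zero h, sub_zero, abs_zero]
    positivity

/-- The array. -/
noncomputable def arr (a b : ℤ) (x y H K : ℕ) : Arr (Fin 1) where
  x := y + 1
  X := Yt K y
  H := H
  Z p c := if x < p then (mh a b p - hz a b p (c 0)) / √(ck a b (x + 1) (y + 1)) else 0
  b p := if x < p then (|aT a b p| + 20001) / p / √(ck a b (x + 1) (y + 1)) else 0
  m t := tm a b x y t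
  path c t := (sH a b (c 0) (x + 1) (tm a b x y t + 1) - cen a b (x + 1) (tm a b x y t + 1)) / √(ck a b (x + 1) (y + 1))
  bad _ := 0

theorem split_sum (F : ℕ → ℝ) (x v : ℕ) : ∑ p ∈ (Ico 0 v).filter Nat.Prime, (if x < p then F p else 0) =
    ∑ p ∈ (Ico (x + 1) v).filter Nat.Prime, F p := by
  rw [← Finset.sum_filter, Finset.filter_filter]
  refine Finset.sum_congr ?_ fun p _ => rfl
  ext p
  simp only [Finset.mem_filter, Finset.mem_Ico]
  constructor
  · rintro ⟨⟨_, h2⟩, h3, h4⟩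
    exact ⟨⟨by omega, h2⟩, h3⟩
  · rintro ⟨⟨h1, h2⟩, h3⟩
    exact ⟨⟨Nat.zero_le _, h2⟩, h3, by omega⟩

/-- The sums of the squares of the bounds. -/
theorem BB_arr (a b : ℤ) {x y H K : ℕ} (hτ : 0 < ck a b (x + 1) (y + 1)) (u v : ℕ) :
    BB (arr a b x y H K).b u v ≤ (2 * ck a b (max u (x + 1)) v + 1000000000 * S3) / ck a b (x + 1) (y + 1) := by
  obtain ⟨τ, hτd⟩ : ∃ τ, τ = ck a b (x + 1) (y + 1) := ⟨_, rfl⟩
  have hb : ∀ p, (arr a b x y H K).b p = if x < p then (|aT a b p| + 20001) / p / √τ else 0 := by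
    intro p
    rw [hτd]
    rfl
  unfold BB
  rw [← hτd] at hτ ⊢
  have e : ∑ p ∈ (Ico u v).filter Nat.Prime, (arr a b x y H K).b p ^ 2 =
      ∑ p ∈ (Ico (max u (x + 1)) v).filter Nat.Prime, ((|aT a b p| + 20001) / p) ^ 2 / τ := by
    have e1 : ∀ p : ℕ, (arr a b x y H K).b p ^ 2 = if x < p then ((|aT a b p| + 20001) / p) ^ 2 / τ else 0 := by
      intro p
      rw [hb]
      split_ifs
      · rw [div_pow, Real.sq_sqrt hτ.le]
      · ring
    simp only [e1]
    rw [← Finset.sum_filter, Finset.filter_filter]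
    refine Finset.sum_congr ?_ fun p _ => rfl
    ext p
    simp only [Finset.mem_filter, Finset.mem_Ico]
    constructor
    · rintro ⟨⟨h1, h2⟩, h3, h4⟩
      exact ⟨⟨by omega, h2⟩, h3⟩
    · rintro ⟨⟨h1, h2⟩, h3⟩
      exact ⟨⟨by omega, h2⟩, h3, by omega⟩
  rw [e, ← Finset.sum_div]
  apply div_le_div_of_nonneg_right _ hτ.le
  have h1 : ∀ p ∈ (Ico (max u (x + 1)) v).filter Nat.Prime, ((|aT a b p| + 20001) / (p : ℝ)) ^ 2 ≤
      2 * (aT a b p / p) ^ 2 + 1000000000 * (1 / ((p : ℝ) * √p)) := by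
    intro p hp
    have hpp := (Finset.mem_filter.1 hp).2
    have hp0 : (0 : ℝ) < p := by exact_mod_cast hpp.pos
    have hp1 : (1 : ℝ) ≤ p := by exact_mod_cast hpp.one_le
    obtain ⟨s, hs⟩ : ∃ s : ℝ, s = √p := ⟨_, rfl⟩
    have hs0 : 0 < s := by rw [hs]; exact Real.sqrt_pos.2 hp0
    have hss : s * s = p := by rw [hs]; exact Real.mul_self_sqrt hp0.le
    have hsp : s ≤ p := by nlinarith
    rw [← hs]
    have h2 : (|aT a b p| + 20001) ^ 2 ≤ 2 * (aT a b p) ^ 2 + 1000000000 := by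
      rw [← sq_abs (aT a b p)]
      nlinarith [sq_nonneg (|aT a b p| - 20001)]
    calc ((|aT a b p| + 20001) / (p : ℝ)) ^ 2 = (|aT a b p| + 20001) ^ 2 * (1 / ((p : ℝ) * p)) := by field_simp
      _ ≤ (2 * (aT a b p) ^ 2 + 1000000000) * (1 / ((p : ℝ) * p)) := by gcongr
      _ = 2 * (aT a b p / p) ^ 2 + 1000000000 * (1 / ((p : ℝ) * p)) := by field_simp
      _ ≤ 2 * (aT a b p / p) ^ 2 + 1000000000 * (1 / ((p : ℝ) * s)) := by gcongr
  refine (Finset.sum_le_sum h1).trans ?_
  rw [Finset.sum_add_distrib, ← Finset.mul_sum, ← Finset.mul_sum]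
  have h3 := S3_le ((Ico (max u (x + 1)) v).filter Nat.Prime)
  have h4 : ∑ p ∈ (Ico (max u (x + 1)) v).filter Nat.Prime, (aT a b p / (p : ℝ)) ^ 2 = ck a b (max u (x + 1)) v := rfl
  rw [h4]
  linarith

/-- **The array is admissible.** -/
theorem arr_ok (k : ℕ) : ∃ L : ℝ, 0 < L ∧ ∀ (a b : ℤ) (x y H : ℕ), x ≤ y → L ≤ ck a b (x + 1) (y + 1) → y ^ 7 ≤ H →
    (arr a b x y H k).Ok 2 k := by
  obtain ⟨C1, hC1, hLg⟩ := LL_Lg
  obtain ⟨C2, hC2, hYt⟩ := Yt_LL k
  rw [Filter.eventually_atTop] at hYt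
  obtain ⟨Y0, hY0⟩ := hYt
  obtain ⟨Y1, hY1⟩ : ∃ Y1, Y1 = max Y0 64 := ⟨_, rfl⟩
  have hS := S3_nonneg
  obtain ⟨A, hA⟩ : ∃ A : ℝ, A = 4 + 4 * (C1 + C2) + 3000000000 * S3 + 8 + 8 * (C1 + C2) := ⟨_, rfl⟩
  have hA0 : 0 ≤ A := by rw [hA]; positivity
  obtain ⟨L, hL⟩ : ∃ L : ℝ, L = 4 * LL 0 (Y1 + 1) + A * (k + 1) + (20003 * (k + 1)) ^ 2 + (20001 * S3 * (k + 1)) ^ 2 + 1 := ⟨_, rfl⟩
  have hLL0 := LL_nonneg 0 (Y1 + 1)
  have hL0 : 0 < L := by rw [hL]; positivity
  refine ⟨L, hL0, fun a b x y H hxy hLτ hH => ?_⟩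
  obtain ⟨τ, hτd⟩ : ∃ τ, τ = ck a b (x + 1) (y + 1) := ⟨_, rfl⟩
  have hck0 := ck_nonneg a b (x + 1) (y + 1)
  rw [← hτd] at hLτ
  have hk0 : (0 : ℝ) < (k : ℝ) + 1 := by positivity
  have hτ0 : 0 < τ := hL0.trans_le hLτ
  have hτA : A * (k + 1) ≤ τ := by
    have : A * (k + 1) ≤ L := by rw [hL]; nlinarith [sq_nonneg (20003 * ((k : ℝ) + 1)), sq_nonneg (20001 * S3 * ((k : ℝ) + 1))]
    linarith
  have hAτ : A / τ ≤ 1 / (k + 1) := by
    rw [div_le_div_iff₀ hτ0 hk0]
    linarith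
  have hfrac : ∀ z : ℝ, z ≤ A → z / τ ≤ 1 / (k + 1) := fun z hz => (div_le_div_of_nonneg_right hz hτ0.le).trans hAτ
  have hσ0 : 0 < √τ := Real.sqrt_pos.2 hτ0
  have hσ1 : 20003 * ((k : ℝ) + 1) ≤ √τ := by
    apply Real.le_sqrt_of_sq_le
    have : (20003 * ((k : ℝ) + 1)) ^ 2 ≤ L := by
      rw [hL]
      have : 0 ≤ A * ((k : ℝ) + 1) := by positivity
      nlinarith [sq_nonneg (20001 * S3 * ((k : ℝ) + 1))]
    linarith
  have hσ2 : 20001 * S3 * ((k : ℝ) + 1) ≤ √τ := by
    apply Real.le_sqrt_of_sq_le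
    have : (20001 * S3 * ((k : ℝ) + 1)) ^ 2 ≤ L := by
      rw [hL]
      have : 0 ≤ A * ((k : ℝ) + 1) := by positivity
      nlinarith [sq_nonneg (20003 * ((k : ℝ) + 1))]
    linarith
  have hy1 : Y1 ≤ y := by
    by_contra hcon
    push Not at hcon
    have h1 := ck_LL a b (x + 1) (y + 1)
    have h2 : LL (x + 1) (y + 1) ≤ LL 0 (Y1 + 1) := by
      unfold LL
      refine Finset.sum_le_sum_of_subset_of_nonneg ?_ fun p _ _ => by positivity
      exact Finset.filter_subset_filter _ (Finset.Ico_subset_Ico (Nat.zero_le _) (by omega))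
    rw [← hτd] at h1
    have h3 : 4 * LL 0 (Y1 + 1) < L := by
      rw [hL]
      have : 0 ≤ A * ((k : ℝ) + 1) := by positivity
      nlinarith [sq_nonneg (20003 * ((k : ℝ) + 1)), sq_nonneg (20001 * S3 * ((k : ℝ) + 1))]
    linarith
  have hyY0 : Y0 ≤ y := by rw [hY1] at hy1; exact (le_max_left _ _).trans hy1
  have hy64 : 64 ≤ y := by rw [hY1] at hy1; exact (le_max_right _ _).trans hy1
  obtain ⟨hX1, hX2⟩ := hY0 y hyY0
  have hXy : Yt k y ≤ y := by
    unfold Yt
    apply Nat.floor_le_of_le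
    have h1 : (1 : ℝ) ≤ y := by exact_mod_cast (by omega : 1 ≤ y)
    calc (y : ℝ) ^ (1 / ((k : ℝ) + 1)) ≤ (y : ℝ) ^ (1 : ℝ) := by
          apply Real.rpow_le_rpow_of_exponent_le h1
          rw [div_le_one hk0]
          have : (0 : ℝ) ≤ k := Nat.cast_nonneg _
          linarith
      _ = y := Real.rpow_one _
  obtain ⟨X, hX⟩ : ∃ X, X = Yt k y := ⟨_, rfl⟩
  rw [← hX] at hX1 hX2 hXy
  have htail : LL (X + 1) (y + 1) ≤ C1 + C2 := by
    have h1 := (abs_le.1 (hLg y (by omega))).2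
    have h2 := LL_split (show X + 1 ≤ y + 1 by omega)
    linarith
  have hckt : ∀ v, v ≤ y + 1 → ck a b (X + 1) v ≤ 4 * (C1 + C2) := by
    intro v hv
    calc ck a b (X + 1) v ≤ ck a b (X + 1) (y + 1) := ck_mono le_rfl hv
      _ ≤ 4 * LL (X + 1) (y + 1) := ck_LL _ _ _ _
      _ ≤ 4 * (C1 + C2) := by linarith
  have hZ : ∀ (p : ℕ) (c : Fin 1 → ZMod p), (arr a b x y H k).Z p c = if x < p then (mh a b p - hz a b p (c 0)) / √τ else 0 := by
    intro p c
    rw [hτd]
    rfl
  have hb : ∀ p, (arr a b x y H k).b p = if x < p then (|aT a b p| + 20001) / p / √τ else 0 := by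
    intro p
    rw [hτd]
    rfl
  have hmt : ∀ t, (arr a b x y H k).m t = tm a b x y t := fun t => rfl
  have hXe : (arr a b x y H k).X = X := hX.symm
  have hup : ∀ t, 0 ≤ t → t ≤ 1 → ck a b (x + 1) (tm a b x y t + 1) ≤ t * τ + 4 := by
    intro t h0 h1
    rw [hτd]
    exact tm_up hxy h0 h1
  have hlo : ∀ t, t ≤ 1 → t * τ ≤ ck a b (x + 1) (tm a b x y t + 1) := by
    intro t h1
    rw [hτd]
    exact (tm_spec hxy h1).2
  refine
    { mono := fun s t _ hst ht1 => tm_mono hxy hst ht1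
      top := fun t _ ht1 => Nat.lt_succ_of_le (tm_le hxy ht1)
      b0 := fun p => ?_
      bd := fun p hp c => ?_
      small := fun p => ?_
      mean := fun p hp _ => ?_
      var := fun t ht0 ht1 => ?_
      reg := fun s t hs hst ht => ?_
      tail := ?_
      size := by rw [hXe]; exact hX1
      high := ?_
      high6 := ?_
      bad0 := fun c => le_rfl
      badE := ?_
      near := fun c _ t ht0 ht1 => ?_ }
  · rw [hb]
    split_ifs
    · positivity
    · exact le_rfl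
  · rw [hZ, hb]
    split_ifs with hxp
    · rw [abs_div, abs_of_pos hσ0]
      exact div_le_div_of_nonneg_right (bd_loc a b hp (c 0)) hσ0.le
    · rw [abs_zero]
  · rw [hb]
    split_ifs with hxp
    · have h1 : (|aT a b p| + 20001) / (p : ℝ) ≤ 20003 := by
        have hp1 : (1 : ℝ) ≤ p := by exact_mod_cast (by omega : 1 ≤ p)
        rw [div_le_iff₀ (by linarith)]
        by_cases hp : p.Prime
        · have h2 : |aT a b p| ≤ 2 * √p := TT_le hp a b
          have h3 : √(p : ℝ) ≤ p := by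
            rw [Real.sqrt_le_iff]
            constructor <;> nlinarith
          nlinarith
        · have : aT a b p = 0 := aT_bad fun h => hp h.1
          rw [this, abs_zero]
          linarith
      rw [div_le_div_iff₀ hσ0 hk0]
      calc (|aT a b p| + 20001) / (p : ℝ) * (k + 1) ≤ 20003 * (k + 1) := by gcongr
        _ ≤ 1 * √τ := by linarith
    · positivity
  · by_cases hxp : x < p
    · have e : (arr a b x y H k).Z p = fun c => (1 / √τ) * (fun c : Fin 1 → ZMod p => mh a b p - hz a b p (c 0)) c := by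
        funext c
        rw [hZ, if_pos hxp]
        ring
      rw [e, EM_mul', EM_sub', EM_const', mh_eq a b hp, sub_self, mul_zero]
    · have e : (arr a b x y H k).Z p = fun _ => (0 : ℝ) := by
        funext c
        rw [hZ, if_neg hxp]
      rw [e, EM_const']
  · rw [hmt, hXe]
    obtain ⟨m, hm⟩ : ∃ m, m = tm a b x y t := ⟨_, rfl⟩
    rw [← hm]
    have h1 : ∀ p ∈ (Ico 0 (min X m + 1)).filter Nat.Prime, |vv (arr a b x y H k).Z p - (if x < p then (aT a b p / p) ^ 2 / τ else 0)| ≤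
        1000000000 / τ * (1 / ((p : ℝ) * √p)) := by
      intro p hp
      have hpp := (Finset.mem_filter.1 hp).2
      haveI : NeZero p := ⟨hpp.ne_zero⟩
      rw [vv_eq]
      split_ifs with hxp
      · have e : (fun c => (arr a b x y H k).Z p c ^ 2) = fun c => (1 / τ) * (fun c : Fin 1 → ZMod p => (mh a b p - hz a b p (c 0)) ^ 2) c := by
          funext c
          rw [hZ, if_pos hxp, div_pow, Real.sq_sqrt hτ0.le]
          ring
        rw [e, EM_mul']
        have h2 := var_loc a b hpp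
        have e2 : 1 / τ * EM p (fun c : Fin 1 → ZMod p => (mh a b p - hz a b p (c 0)) ^ 2) - (aT a b p / p) ^ 2 / τ =
            (1 / τ) * (EM p (fun c : Fin 1 → ZMod p => (mh a b p - hz a b p (c 0)) ^ 2) - (aT a b p / p) ^ 2) := by ring
        rw [e2, abs_mul, abs_of_pos (by positivity : 0 < 1 / τ)]
        calc 1 / τ * |EM p (fun c : Fin 1 → ZMod p => (mh a b p - hz a b p (c 0)) ^ 2) - (aT a b p / p) ^ 2|
            ≤ 1 / τ * (1000000000 * (1 / ((p : ℝ) * √p))) := by gcongr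
          _ = 1000000000 / τ * (1 / ((p : ℝ) * √p)) := by ring
      · have e : (fun c => (arr a b x y H k).Z p c ^ 2) = fun _ => (0 : ℝ) := by
          funext c
          rw [hZ, if_neg hxp]
          ring
        rw [e, EM_const', sub_zero, abs_zero]
        positivity
    have h2 : |∑ p ∈ (Ico 0 (min X m + 1)).filter Nat.Prime, vv (arr a b x y H k).Z p - ck a b (x + 1) (min X m + 1) / τ| ≤
        1000000000 * S3 / τ := by
      have e : ck a b (x + 1) (min X m + 1) / τ =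
          ∑ p ∈ (Ico 0 (min X m + 1)).filter Nat.Prime, (if x < p then (aT a b p / p) ^ 2 / τ else 0) := by
        rw [split_sum (fun p => (aT a b p / p) ^ 2 / τ)]
        unfold ck
        rw [Finset.sum_div]
      rw [e, ← Finset.sum_sub_distrib]
      refine (Finset.abs_sum_le_sum_abs _ _).trans ((Finset.sum_le_sum h1).trans ?_)
      rw [← Finset.mul_sum]
      have := S3_le ((Ico 0 (min X m + 1)).filter Nat.Prime)
      calc 1000000000 / τ * ∑ i ∈ (Ico 0 (min X m + 1)).filter Nat.Prime, 1 / ((i : ℝ) * √i) ≤ 1000000000 / τ * S3 := by gcongr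
        _ = 1000000000 * S3 / τ := by ring
    have h3 : |ck a b (x + 1) (min X m + 1) / τ - t| ≤ (4 + 4 * (C1 + C2)) / τ := by
      have e : ck a b (x + 1) (min X m + 1) / τ - t = (ck a b (x + 1) (min X m + 1) - t * τ) / τ := by
        field_simp
      rw [e, abs_div, abs_of_pos hτ0]
      apply div_le_div_of_nonneg_right _ hτ0.le
      have h4 := hup t ht0 ht1
      have h5 := hlo t ht1
      rw [← hm] at h4 h5
      have h6 : ck a b (x + 1) (min X m + 1) ≤ ck a b (x + 1) (m + 1) := ck_mono le_rfl (by omega)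
      have h7 : ck a b (x + 1) (m + 1) - 4 * (C1 + C2) ≤ ck a b (x + 1) (min X m + 1) := by
        rcases le_total m X with h' | h'
        · rw [min_eq_right h']
          have : 0 ≤ 4 * (C1 + C2) := by positivity
          linarith
        · rw [min_eq_left h']
          have hmy : m ≤ y := by rw [hm]; exact tm_le hxy ht1
          have h8 := hckt (m + 1) (by omega)
          rcases le_total x X with h9 | h9
          · have h10 := ck_add (a := a) (b := b) (show x + 1 ≤ X + 1 by omega) (show X + 1 ≤ m + 1 by omega)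
            linarith
          · have h10 : ck a b (x + 1) (m + 1) ≤ ck a b (X + 1) (m + 1) := ck_mono (by omega) le_rfl
            have h11 := ck_nonneg a b (x + 1) (X + 1)
            linarith
      rw [abs_le]
      constructor <;> linarith
    have h4 : |∑ p ∈ (Ico 0 (min X m + 1)).filter Nat.Prime, vv (arr a b x y H k).Z p - t| ≤
        1000000000 * S3 / τ + (4 + 4 * (C1 + C2)) / τ := by
      rw [abs_le] at h2 h3 ⊢
      constructor <;> linarith [h2.1, h2.2, h3.1, h3.2]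
    refine h4.trans ?_
    rw [← add_div]
    apply hfrac
    rw [hA]
    nlinarith
  · rw [hmt, hmt]
    have h1 := BB_arr a b (x := x) (y := y) (H := H) (K := k) (by rw [← hτd]; exact hτ0) (tm a b x y s + 1) (tm a b x y t + 1)
    rw [← hτd] at h1
    have hs1 : s ≤ 1 := hst.trans ht
    have hxs := (tm_spec (a := a) (b := b) (t := s) hxy hs1).1
    rw [max_eq_left (by omega : x + 1 ≤ tm a b x y s + 1)] at h1
    have h2 := ck_add (a := a) (b := b) (show x + 1 ≤ tm a b x y s + 1 by omega)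
      (show tm a b x y s + 1 ≤ tm a b x y t + 1 by have := tm_mono (a := a) (b := b) hxy hst ht; omega)
    have h3 := hup t (hs.trans hst) ht
    have h4 := hlo s hs1
    refine h1.trans ?_
    have h5 : (2 * ck a b (tm a b x y s + 1) (tm a b x y t + 1) + 1000000000 * S3) / τ ≤
        (2 * ((t - s) * τ) + (8 + 1000000000 * S3)) / τ := by
      apply div_le_div_of_nonneg_right _ hτ0.le
      nlinarith
    refine h5.trans ?_
    rw [add_div]
    have h6 : 2 * ((t - s) * τ) / τ = 2 * (t - s) := by field_simp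
    rw [h6]
    have h7 : (8 + 1000000000 * S3) / τ ≤ 1 / (k + 1) := by
      apply hfrac
      rw [hA]
      nlinarith
    linarith
  · rw [hXe]
    have h1 := BB_arr a b (x := x) (y := y) (H := H) (K := k) (by rw [← hτd]; exact hτ0) (X + 1) (y + 1)
    rw [← hτd] at h1
    refine h1.trans ?_
    apply hfrac
    have h2 : ck a b (max (X + 1) (x + 1)) (y + 1) ≤ 4 * (C1 + C2) :=
      (ck_mono (le_max_left _ _) le_rfl).trans (hckt (y + 1) le_rfl)
    rw [hA]
    nlinarith
  · rw [hXe, hX]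
    have h1 := Yt_pow k y (by omega)
    have h2 : y ≤ y ^ 7 := Nat.le_self_pow (by norm_num) y
    exact h1.trans (h2.trans hH)
  · show 2 ^ Fintype.card (Fin 1) * (y + 1) ^ 6 ≤ 2 * H + 1
    rw [Fintype.card_fin, pow_one]
    have h1 : (y + 1) ^ 6 ≤ y ^ 7 := by
      calc (y + 1) ^ 6 ≤ (2 * y) ^ 6 := Nat.pow_le_pow_left (by omega) 6
        _ = 64 * y ^ 6 := by ring
        _ ≤ y * y ^ 6 := Nat.mul_le_mul_right _ hy64
        _ = y ^ 7 := by ring
    omega
  · show EB H (fun _ : Fin 1 → ℤ => (0 : ℝ)) ≤ 1 / (k + 1)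
    rw [EB_const]
    positivity
  · have e1 : (arr a b x y H k).path c t =
        (sH a b (c 0) (x + 1) (tm a b x y t + 1) - cen a b (x + 1) (tm a b x y t + 1)) / √τ := by
      rw [hτd]
      rfl
    rw [e1, hmt]
    obtain ⟨m, hm⟩ : ∃ m, m = tm a b x y t := ⟨_, rfl⟩
    rw [← hm]
    have e2 : SS (arr a b x y H k).Z 0 (m + 1) c =
        (∑ p ∈ (Ico (x + 1) (m + 1)).filter Nat.Prime, mh a b p - sH a b (c 0) (x + 1) (m + 1)) / √τ := by
      unfold SS sH
      rw [← Finset.sum_sub_distrib, Finset.sum_div, ← split_sum (fun p => (mh a b p - HH a b p (c 0)) / √τ)]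
      refine Finset.sum_congr rfl fun p hp => ?_
      have hpp := (Finset.mem_filter.1 hp).2
      haveI : Fact p.Prime := ⟨hpp⟩
      rw [hZ]
      have e3 : hz a b p (red p c 0) = HH a b p (c 0) := hz_red a b (c 0)
      rw [e3]
    rw [e2]
    have e3 : (sH a b (c 0) (x + 1) (m + 1) - cen a b (x + 1) (m + 1)) / √τ +
        (∑ p ∈ (Ico (x + 1) (m + 1)).filter Nat.Prime, mh a b p - sH a b (c 0) (x + 1) (m + 1)) / √τ =
        (∑ p ∈ (Ico (x + 1) (m + 1)).filter Nat.Prime, mh a b p - cen a b (x + 1) (m + 1)) / √τ := by ring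
    rw [e3, abs_div, abs_of_pos hσ0, div_le_div_iff₀ hσ0 hk0]
    have h1 := mh_cen a b (x + 1) (m + 1)
    calc |∑ p ∈ (Ico (x + 1) (m + 1)).filter Nat.Prime, mh a b p - cen a b (x + 1) (m + 1)| * (k + 1) ≤
          20001 * S3 * (k + 1) := by gcongr
      _ ≤ 1 * √τ := by linarith

/-- **The invariance principle for the twists of a curve.** -/
theorem twist_paths {Ω : Type*} [MeasurableSpace Ω] {P : Measure Ω} {W : ℝ≥0 → Ω → ℝ} (hW : IsBrownianReal W P)
    {Φ : (ℝ → ℝ) → ℝ} {Mb Kf : ℝ} (hΦ : Fun Φ Mb Kf) {ε : ℝ} (hε : 0 < ε) :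
    ∃ L : ℝ, 0 < L ∧ ∀ (a b : ℤ) (x y H : ℕ), x ≤ y → L ≤ ck a b (x + 1) (y + 1) → y ^ 7 ≤ H →
      |EB H (fun c : Fin 1 → ℤ => Φ (fun t => (sH a b (c 0) (x + 1) (tm a b x y t + 1) - cen a b (x + 1) (tm a b x y t + 1)) /
        √(ck a b (x + 1) (y + 1)))) - ∫ ω, Φ (fun t : ℝ => W t.toNNReal ω) ∂P| ≤ ε := by
  obtain ⟨k, hk⟩ := donsker (ι := Fin 1) hW hΦ (C := 2) (by norm_num) hε
  obtain ⟨L, hL0, hL⟩ := arr_ok k
  refine ⟨L, hL0, fun a b x y H hxy hτ hH => ?_⟩
  have h := hk _ (hL a b x y H hxy hτ hH)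
  dsimp only [arr] at h
  exact h

end Pool.Agent.V5helper57.Tw
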