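import Pool.Agent.V5helper57.Gen.Main
import Pool.Agent.H491R4.TW1

/-!
# The local factors of the quadratic twists of a curve
-/

set_option autoImplicit false

namespace Pool.Agent.V5helper57.Tw

open Finset Filter Topology Pool.Agent.Y722.HS Pool.Agent.X280.BP
open Pool.Agent.R459.Bsd (tr tr_abs TT GG pc_eq ch_zero ch_sum ch_sq ch_abs)
open Pool.Agent.H491R4.TW (HH HH_per good_twist tr_twist)
open Pool.Agent.W263.BSD (GoodPrime pointCount)

theorem sq3 : (17 / 10 : ℝ) ≤ √(3 : ℝ) ∧ √(3 : ℝ) ≤ 9 / 5 := by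
  constructor
  · apply Real.le_sqrt_of_sq_le; norm_num
  · apply Real.sqrt_le_iff.2; norm_num

/-- The logarithm of `N_p / p`, for `p = 3` too. -/
theorem log_term3 {p : ℕ} (hp : p.Prime) (h2 : p ≠ 2) {t : ℝ} (ht : |t| ≤ 2 * √p) :
    |Real.log ((p + 1 - t) / p) + (t / p + (t ^ 2 - 2 * p) / (2 * p ^ 2))| ≤ 10000 / (p * √p) := by
  by_cases h5 : 5 ≤ p
  · exact log_term hp h5 ht
  · have h3 : p = 3 := by
      have h7 := hp.two_le
      interval_cases p
      · exact absurd rfl h2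
      · rfl
      · exact absurd hp (by norm_num)
    subst h3
    push_cast at ht ⊢
    obtain ⟨s1, s2⟩ := sq3
    obtain ⟨t1, t2⟩ := abs_le.1 ht
    have hs : √(3 : ℝ) * √(3 : ℝ) = 3 := Real.mul_self_sqrt (by norm_num)
    have hN1 : (2 : ℝ) / 15 ≤ (3 + 1 - t) / 3 := by
      rw [le_div_iff₀ (by norm_num)]
      linarith
    have hN2 : (3 + 1 - t) / 3 ≤ (3 : ℝ) := by
      rw [div_le_iff₀ (by norm_num)]
      linarith
    have hpos : (0 : ℝ) < (3 + 1 - t) / 3 := by linarith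
    have hl1 : Real.log ((3 + 1 - t) / 3) ≤ 2 := by
      have := Real.log_le_sub_one_of_pos hpos
      linarith
    have hl2 : -7 ≤ Real.log ((3 + 1 - t) / 3) := by
      have h7 := Real.one_sub_inv_le_log_of_pos hpos
      have h8 : ((3 + 1 - t) / 3)⁻¹ ≤ 15 / 2 := by
        rw [inv_le_comm₀ hpos (by norm_num)]
        linarith
      linarith
    have ht2 : t ^ 2 ≤ 12 := by
      have := sq_le_sq' (by linarith : -(2 * √(3 : ℝ)) ≤ t) t2
      nlinarith
    have hR : (1000 : ℝ) ≤ 10000 / (3 * √3) := by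
      rw [le_div_iff₀ (by positivity)]
      linarith
    refine le_trans ?_ hR
    have ht20 : 0 ≤ t ^ 2 := by positivity
    rw [abs_le]
    constructor <;> linarith

section
variable {p : ℕ} [Fact p.Prime]

/-- Half of the sum, and half of the difference of the two logarithms. -/
noncomputable def La (p : ℕ) (T : ℝ) : ℝ := (Real.log ((p + 1 - T) / p) + Real.log ((p + 1 - -T) / p)) / 2
noncomputable def Lb (p : ℕ) (T : ℝ) : ℝ := (Real.log ((p + 1 - T) / p) - Real.log ((p + 1 - -T) / p)) / 2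

/-- The local factor as a function of the residue. -/
noncomputable def hz (a b : ℤ) (p : ℕ) (z : ZMod p) : ℝ := HH a b p (z.val : ℤ)

theorem hz_red (a b d : ℤ) : hz a b p (d : ZMod p) = HH a b p d := by
  unfold hz
  apply HH_per
  rw [← ZMod.intCast_zmod_eq_zero_iff_dvd]
  push_cast
  rw [ZMod.natCast_zmod_val, sub_self]

theorem HH_val (h2 : p ≠ 2) {a b : ℤ} (hg : GoodPrime a b p) (d : ℤ) :
    HH a b p d = if (d : ZMod p) = 0 then 0 else
      La p (TT a p b) + Pool.Agent.R459.Bsd.ch p d * Lb p (TT a p b) := by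
  classical
  have hp0 : (0 : ℝ) < p := by exact_mod_cast (Fact.out : p.Prime).pos
  have hT : TT a p b = tr p a b := by
    unfold Pool.Agent.R459.Bsd.TT
    rw [if_pos hg, pc_eq h2]
  unfold HH GG
  by_cases h0 : (d : ZMod p) = 0
  · rw [if_pos h0, if_neg]
    rw [good_twist]
    rintro ⟨_, h1⟩
    exact h1 ((ZMod.intCast_zmod_eq_zero_iff_dvd _ _).1 h0)
  · rw [if_neg h0, if_pos]
    · have h1 := pc_eq (p := p) h2 (a * d ^ 2) (b * d ^ 3)
      push_cast at h1
      rw [tr_twist _ _ h0, ← hT] at h1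
      have h3 := ch_sq h0
      have h4 : (Pool.Agent.R459.Bsd.ch p (d : ZMod p) - 1) * (Pool.Agent.R459.Bsd.ch p (d : ZMod p) + 1) = 0 := by
        linear_combination h3
      have hpc : (pointCount (a * d ^ 2) (b * d ^ 3) p : ℝ) = p - Pool.Agent.R459.Bsd.ch p (d : ZMod p) * TT a p b := by
        linarith
      unfold La Lb
      rcases mul_eq_zero.1 h4 with h5 | h5
      · have h6 : Pool.Agent.R459.Bsd.ch p (d : ZMod p) = 1 := by linarith
        rw [hpc, h6]
        have e : (p : ℝ) - 1 * TT a p b + 1 = p + 1 - TT a p b := by ring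
        rw [e]
        ring
      · have h6 : Pool.Agent.R459.Bsd.ch p (d : ZMod p) = -1 := by linarith
        rw [hpc, h6]
        have e : (p : ℝ) - -1 * TT a p b + 1 = p + 1 - -TT a p b := by ring
        rw [e]
        ring
    · rw [good_twist]
      exact ⟨hg, fun h1 => h0 ((ZMod.intCast_zmod_eq_zero_iff_dvd _ _).2 h1)⟩

theorem hz_val (h2 : p ≠ 2) {a b : ℤ} (hg : GoodPrime a b p) (z : ZMod p) :
    hz a b p z = (La p (TT a p b) + Pool.Agent.R459.Bsd.ch p z * Lb p (TT a p b)) - (if z = 0 then La p (TT a p b) else 0) := by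
  unfold hz
  rw [HH_val h2 hg]
  have e : (((z.val : ℕ) : ℤ) : ZMod p) = z := by
    push_cast
    exact ZMod.natCast_zmod_val z
  rw [e]
  by_cases hz0 : z = 0
  · rw [if_pos hz0, if_pos hz0, hz0, ch_zero]
    ring
  · rw [if_neg hz0, if_neg hz0]
    ring

theorem EM_one (f : ZMod p → ℝ) [NeZero p] : EM p (fun c : Fin 1 → ZMod p => f (c 0)) = (∑ z, f z) / p := by
  unfold EM
  rw [Fintype.card_fin, pow_one]
  congr 1
  refine Fintype.sum_equiv (Equiv.funUnique (Fin 1) (ZMod p)) _ _ fun c => ?_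
  rfl

theorem bad_zero {a b : ℤ} (hg : ¬ GoodPrime a b p) (z : ZMod p) : hz a b p z = 0 := by
  classical
  unfold hz HH GG
  rw [if_neg]
  rw [good_twist]
  exact fun h => hg h.1

/-- The mean of the local factor. -/
theorem hz_mean [NeZero p] (h2 : p ≠ 2) {a b : ℤ} (hg : GoodPrime a b p) :
    EM p (fun c : Fin 1 → ZMod p => hz a b p (c 0)) = La p (TT a p b) - La p (TT a p b) / p := by
  have hp0 : (p : ℝ) ≠ 0 := by exact_mod_cast (Fact.out : p.Prime).ne_zero
  rw [EM_one (hz a b p)]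
  simp only [hz_val h2 hg]
  rw [Finset.sum_sub_distrib, Finset.sum_add_distrib, ← Finset.sum_mul, ch_sum h2, Finset.sum_const, Finset.card_univ,
    ZMod.card, nsmul_eq_mul, Finset.sum_ite_eq' univ (0 : ZMod p), if_pos (mem_univ _)]
  field_simp
  ring

/-- The second moment of the local factor. -/
theorem hz_sq [NeZero p] (h2 : p ≠ 2) {a b : ℤ} (hg : GoodPrime a b p) :
    EM p (fun c : Fin 1 → ZMod p => hz a b p (c 0) ^ 2) =
      (1 - 1 / p) * (La p (TT a p b) ^ 2 + Lb p (TT a p b) ^ 2) := by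
  have hp0 : (p : ℝ) ≠ 0 := by exact_mod_cast (Fact.out : p.Prime).ne_zero
  rw [EM_one (fun z => hz a b p z ^ 2)]
  obtain ⟨A, hA⟩ : ∃ A, A = La p (TT a p b) := ⟨_, rfl⟩
  obtain ⟨B, hB⟩ : ∃ B, B = Lb p (TT a p b) := ⟨_, rfl⟩
  have e : ∀ z : ZMod p, hz a b p z ^ 2 = (A ^ 2 + B ^ 2) + Pool.Agent.R459.Bsd.ch p z * (2 * A * B) -
      (if z = 0 then A ^ 2 + B ^ 2 else 0) := by
    intro z
    rw [hz_val h2 hg, ← hA, ← hB]
    by_cases hz0 : z = 0
    · rw [if_pos hz0, if_pos hz0, hz0, ch_zero]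
      ring
    · rw [if_neg hz0, if_neg hz0]
      have h3 := ch_sq hz0
      linear_combination B ^ 2 * h3
  simp only [e]
  rw [Finset.sum_sub_distrib, Finset.sum_add_distrib, ← Finset.sum_mul, ch_sum h2, Finset.sum_const, Finset.card_univ,
    ZMod.card, nsmul_eq_mul, Finset.sum_ite_eq' univ (0 : ZMod p), if_pos (mem_univ _), ← hA, ← hB]
  field_simp
  ring

end

theorem TT_le {p : ℕ} (hpp : p.Prime) (a b : ℤ) : |TT a p b| ≤ 2 * √p := by
  classical
  haveI : Fact p.Prime := ⟨hpp⟩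
  unfold Pool.Agent.R459.Bsd.TT
  split_ifs with h
  · have h2 : p ≠ 2 := by
      rintro rfl
      apply h.2
      exact Dvd.intro _ rfl
    rw [pc_eq h2]
    exact tr_abs h2 _ _
  · rw [abs_zero]
    positivity

theorem good_ne_two {a b : ℤ} {p : ℕ} (h : GoodPrime a b p) : p ≠ 2 := by
  rintro rfl
  apply h.2
  exact Dvd.intro _ rfl

/-- The estimates for the logarithms. -/
theorem La_Lb {p : ℕ} (hp : p.Prime) (h2 : p ≠ 2) {T : ℝ} (hT : |T| ≤ 2 * √p) :
    |La p T - (1 / p - T ^ 2 / (2 * p ^ 2))| ≤ 10000 / (p * √p) ∧ |Lb p T + T / p| ≤ 10000 / (p * √p) := by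
  have h3 := log_term3 hp h2 hT
  have h4 := log_term3 hp h2 (t := -T) (by rwa [abs_neg])
  have hp0 : (0 : ℝ) < p := by exact_mod_cast hp.pos
  obtain ⟨u, hu⟩ : ∃ u, u = Real.log ((p + 1 - T) / p) := ⟨_, rfl⟩
  obtain ⟨v, hv⟩ : ∃ v, v = Real.log ((p + 1 - -T) / p) := ⟨_, rfl⟩
  have e1 : La p T = (u + v) / 2 := by rw [hu, hv]; rfl
  have e2 : Lb p T = (u - v) / 2 := by rw [hu, hv]; rfl
  rw [← hu] at h3
  rw [← hv] at h4
  obtain ⟨w, hw⟩ : ∃ w, w = (T ^ 2 - 2 * p) / (2 * (p : ℝ) ^ 2) := ⟨_, rfl⟩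
  have e3 : ((-T) ^ 2 - 2 * p) / (2 * (p : ℝ) ^ 2) = w := by rw [hw]; ring
  have e4 : 1 / (p : ℝ) - T ^ 2 / (2 * p ^ 2) = -w := by rw [hw]; field_simp; ring
  rw [← hw] at h3
  rw [e3, neg_div] at h4
  rw [e1, e2, e4]
  rw [abs_le] at h3 h4 ⊢
  rw [abs_le]
  refine ⟨⟨?_, ?_⟩, ?_, ?_⟩ <;> linarith [h3.1, h3.2, h4.1, h4.2]

/-- All the local estimates. -/
theorem loc_est {p : ℕ} (hp : p.Prime) (h2 : p ≠ 2) {T : ℝ} (hT : |T| ≤ 2 * √p) :
    |La p T - La p T / p - (1 / p - T ^ 2 / (2 * p ^ 2))| ≤ 20001 / (p * √p) ∧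
    |Lb p T| + |La p T| ≤ (|T| + 20001) / p ∧
    |(1 - 1 / p) * (La p T ^ 2 + Lb p T ^ 2) - (La p T - La p T / p) ^ 2 - (T / p) ^ 2| ≤ 1000000000 / (p * √p) := by
  obtain ⟨h3, h4⟩ := La_Lb hp h2 hT
  have hp0 : (0 : ℝ) < p := by exact_mod_cast hp.pos
  have hp1 : (1 : ℝ) ≤ p := by exact_mod_cast hp.one_le
  obtain ⟨s, hs⟩ : ∃ s : ℝ, s = √p := ⟨_, rfl⟩
  rw [← hs] at h3 h4 hT
  have hs0 : 0 < s := by rw [hs]; exact Real.sqrt_pos.2 hp0
  have hss : s * s = p := by rw [hs]; exact Real.mul_self_sqrt hp0.le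
  have hs1 : 1 ≤ s := by nlinarith
  have hsp : s ≤ p := by nlinarith
  rw [← hs]
  obtain ⟨A, hA⟩ : ∃ A, A = La p T := ⟨_, rfl⟩
  obtain ⟨B, hB⟩ : ∃ B, B = Lb p T := ⟨_, rfl⟩
  rw [← hA] at h3
  rw [← hB] at h4
  rw [← hA, ← hB]
  have hT2 : T ^ 2 ≤ 4 * p := by
    have := sq_le_sq' (by have := (abs_le.1 hT).1; linarith) (abs_le.1 hT).2
    nlinarith
  have hps : 10000 / ((p : ℝ) * s) ≤ 10000 / p := by
    apply div_le_div_of_nonneg_left (by norm_num) hp0
    nlinarith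
  have hA1 : |A| ≤ 10001 / (p : ℝ) := by
    have h5 : |1 / (p : ℝ) - T ^ 2 / (2 * p ^ 2)| ≤ 1 / (p : ℝ) := by
      have e : 1 / (p : ℝ) - T ^ 2 / (2 * p ^ 2) = (2 * p - T ^ 2) / (2 * p ^ 2) := by field_simp
      rw [e, abs_div, abs_of_pos (by positivity : (0 : ℝ) < 2 * p ^ 2), div_le_div_iff₀ (by positivity) hp0]
      have h6 : |2 * (p : ℝ) - T ^ 2| ≤ 2 * (p : ℝ) := by
        rw [abs_le]
        constructor <;> nlinarith [sq_nonneg T]
      nlinarith
    have h7 : |A| ≤ |A - (1 / p - T ^ 2 / (2 * p ^ 2))| + |1 / (p : ℝ) - T ^ 2 / (2 * p ^ 2)| := by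
      have := abs_add_le (A - (1 / p - T ^ 2 / (2 * p ^ 2))) (1 / (p : ℝ) - T ^ 2 / (2 * p ^ 2))
      rwa [sub_add_cancel] at this
    have e : (10001 : ℝ) / p = 10000 / p + 1 / p := by ring
    rw [e]
    linarith
  have hB1 : |B| ≤ |T| / p + 10000 / (p * s) := by
    have h7 : |B| ≤ |B + T / p| + |T / p| := by
      have := abs_sub (B + T / p) (T / p)
      rwa [add_sub_cancel_right] at this
    rw [abs_div, abs_of_pos hp0] at h7
    linarith
  have hTp : |T| / p ≤ 2 / s := by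
    rw [div_le_div_iff₀ hp0 hs0]
    nlinarith
  have hB2 : |B| ≤ 10002 / s := by
    have h8 : 10000 / ((p : ℝ) * s) ≤ 10000 / s := by
      apply div_le_div_of_nonneg_left (by norm_num) hs0
      nlinarith
    have e : (10002 : ℝ) / s = 2 / s + 10000 / s := by ring
    rw [e]
    linarith
  have hpp : 1 / ((p : ℝ) * p) ≤ 1 / (p * s) := by
    apply one_div_le_one_div_of_le (by positivity)
    nlinarith
  have h1p : 0 ≤ 1 / (p : ℝ) ∧ 1 / (p : ℝ) ≤ 1 := ⟨by positivity, by rw [div_le_one hp0]; exact hp1⟩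
  refine ⟨?_, ?_, ?_⟩
  · have e : A - A / p - (1 / p - T ^ 2 / (2 * p ^ 2)) = (A - (1 / p - T ^ 2 / (2 * p ^ 2))) - A / p := by ring
    rw [e]
    refine (abs_sub _ _).trans ?_
    have h8 : |A / p| ≤ 10001 / (p * s) := by
      rw [abs_div, abs_of_pos hp0]
      calc |A| / p ≤ 10001 / p / p := by gcongr
        _ = 10001 * (1 / (p * p)) := by field_simp
        _ ≤ 10001 * (1 / (p * s)) := by gcongr
        _ = 10001 / (p * s) := by ring
    have e2 : (20001 : ℝ) / (p * s) = 10000 / (p * s) + 10001 / (p * s) := by ring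
    rw [e2]
    linarith
  · have e : (|T| + 20001) / (p : ℝ) = |T| / p + 10000 / p + 10001 / p := by ring
    rw [e]
    linarith
  · have e : (1 - 1 / (p : ℝ)) * (A ^ 2 + B ^ 2) - (A - A / p) ^ 2 - (T / p) ^ 2 =
        (B + T / p) * (B - T / p) - B ^ 2 / p + (1 - 1 / p) * (A ^ 2 / p) := by
      field_simp
      ring
    rw [e]
    have k1 : |(B + T / p) * (B - T / p)| ≤ 200000000 / (p * s) := by
      rw [abs_mul]
      have h9 : |B - T / p| ≤ 10004 / s := by
        refine (abs_sub _ _).trans ?_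
        rw [abs_div, abs_of_pos hp0]
        have e : (10004 : ℝ) / s = 10002 / s + 2 / s := by ring
        rw [e]
        linarith
      have h10 : (10004 : ℝ) / s ≤ 10004 := by
        rw [div_le_iff₀ hs0]
        nlinarith
      calc |B + T / p| * |B - T / p| ≤ 10000 / (p * s) * 10004 := by
            apply mul_le_mul h4 (h9.trans h10) (abs_nonneg _) (by positivity)
        _ = 100040000 / (p * s) := by ring
        _ ≤ 200000000 / (p * s) := by gcongr; norm_num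
    have k2 : |B ^ 2 / p| ≤ 200000000 / (p * s) := by
      rw [abs_of_nonneg (by positivity)]
      have h9 : B ^ 2 ≤ (10002 / s) ^ 2 := by
        rw [← sq_abs B]
        exact pow_le_pow_left₀ (abs_nonneg _) hB2 2
      have h10 : (10002 / s) ^ 2 = (10002 : ℝ) ^ 2 / (p : ℝ) := by rw [div_pow, sq s, hss]
      rw [h10] at h9
      calc B ^ 2 / (p : ℝ) ≤ (10002 : ℝ) ^ 2 / (p : ℝ) / (p : ℝ) := by gcongr
        _ = (10002 : ℝ) ^ 2 * (1 / ((p : ℝ) * p)) := by field_simp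
        _ ≤ (10002 : ℝ) ^ 2 * (1 / ((p : ℝ) * s)) := by gcongr
        _ ≤ 200000000 * (1 / ((p : ℝ) * s)) := by gcongr; norm_num
        _ = 200000000 / ((p : ℝ) * s) := by ring
    have k3 : |(1 - 1 / (p : ℝ)) * (A ^ 2 / p)| ≤ 200000000 / (p * s) := by
      rw [abs_mul, abs_of_nonneg (by linarith : 0 ≤ 1 - 1 / (p : ℝ)), abs_of_nonneg (by positivity : 0 ≤ A ^ 2 / (p : ℝ))]
      have h9 : A ^ 2 ≤ (10001 / p) ^ 2 := by
        rw [← sq_abs A]
        exact pow_le_pow_left₀ (abs_nonneg _) hA1 2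
      have h11 : (10001 / (p : ℝ)) ^ 2 ≤ (10001 : ℝ) ^ 2 * (1 / (p : ℝ)) := by
        rw [div_pow, mul_one_div]
        apply div_le_div_of_nonneg_left (by positivity) hp0
        nlinarith
      calc (1 - 1 / (p : ℝ)) * (A ^ 2 / (p : ℝ)) ≤ 1 * ((10001 / (p : ℝ)) ^ 2 / (p : ℝ)) := by
            apply mul_le_mul (by linarith) (by gcongr) (by positivity) (by norm_num)
        _ ≤ 1 * ((10001 : ℝ) ^ 2 * (1 / (p : ℝ)) / (p : ℝ)) := by gcongr
        _ = (10001 : ℝ) ^ 2 * (1 / ((p : ℝ) * p)) := by field_simp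
        _ ≤ (10001 : ℝ) ^ 2 * (1 / ((p : ℝ) * s)) := by gcongr
        _ ≤ 200000000 * (1 / ((p : ℝ) * s)) := by gcongr; norm_num
        _ = 200000000 / ((p : ℝ) * s) := by ring
    have e9 : (1000000000 : ℝ) / (p * s) = 200000000 / (p * s) + 200000000 / (p * s) + 200000000 / (p * s) + 400000000 / (p * s) := by ring
    have h12 : 0 ≤ 400000000 / ((p : ℝ) * s) := by positivity
    rw [e9]
    have h13 := abs_add_le ((B + T / p) * (B - T / p) - B ^ 2 / p) ((1 - 1 / (p : ℝ)) * (A ^ 2 / p))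
    have h14 := abs_sub ((B + T / p) * (B - T / p)) (B ^ 2 / p)
    linarith

end Pool.Agent.V5helper57.Tw
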